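import Pool.Agent.Helper546_rp.Semi

/-!
# MP_b92a9b_co: deleting a branch from a recursively partitionable semistar

The definitions of `RP`, `IsRP` (recursively partitionable), `lab` and `semistar` are in
`Pool/Agent/Helper546_rp/Basic.lean`.
-/

set_option autoImplicit false

namespace Pool.Agent.Results.MP_b92a9b_co.BranchDeletion

open Pool.Agent.Helper546_rp

/-- If the semistar `K_{b0}(b_0, ..., b_k)` (with `k + 1 ≥ 1` branches of arbitrary orders, zero
allowed) is recursively partitionable, then so is the semistar obtained by deleting the `i`-th
branch, provided that it has at least one vertex. -/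
theorem result (b0 k : ℕ) (b : Fin (k + 1) → ℕ) (i : Fin (k + 1))
    (hne : 0 < b0 + ∑ j, i.removeNth b j) (h : IsRP (semistar b0 b)) :
    IsRP (semistar b0 (i.removeNth b)) :=
  semistar_delete b0 k b i hne h

end Pool.Agent.Results.MP_b92a9b_co.BranchDeletion
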